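import Mathlib

set_option autoImplicit false

/-!
Functions on the solid cylinder which are analytic in the disc variable, and their values on the
lateral surface and the bottom.
-/

namespace Pool.Agent.X189.GS

open Topology Filter unitInterval

noncomputable section

/-- the closed unit disc -/
abbrev Disc : Type := Metric.closedBall (0 : ℂ) 1

instance : CompactSpace Disc := isCompact_iff_compactSpace.1 (isCompact_closedBall 0 1)

/-- continuous functions on the solid cylinder whose horizontal slices are analytic -/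
def Good (F : C(I × Disc, ℂ)) : Prop :=
  ∀ t : I, ∃ g : ℂ → ℂ, DiffContOnCl ℂ g (Metric.ball 0 1) ∧ ∀ w : Disc, F (t, w) = g w

lemma closure_ball_one : closure (Metric.ball (0 : ℂ) 1) = Metric.closedBall 0 1 :=
  closure_ball _ one_ne_zero

lemma frontier_ball_one : frontier (Metric.ball (0 : ℂ) 1) = Metric.sphere 0 1 :=
  frontier_ball _ one_ne_zero

/-- maximum principle on slices -/
lemma slice_max {F : C(I × Disc, ℂ)} (hF : Good F) (t : I) {C : ℝ}
    (hC : ∀ w : Disc, ‖(w : ℂ)‖ = 1 → ‖F (t, w)‖ ≤ C) (w : Disc) : ‖F (t, w)‖ ≤ C := by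
  obtain ⟨g, hg, hgF⟩ := hF t
  rw [hgF w]
  refine Complex.norm_le_of_forall_mem_frontier_norm_le Metric.isBounded_ball hg (fun z hz => ?_) ?_
  · rw [frontier_ball_one, mem_sphere_zero_iff_norm] at hz
    have h1 : z ∈ Metric.closedBall (0 : ℂ) 1 := by
      rw [mem_closedBall_zero_iff]
      exact hz.le
    have h2 := hC ⟨z, h1⟩ hz
    rwa [hgF ⟨z, h1⟩] at h2
  · rw [closure_ball_one]
    exact w.2

lemma Good.add {F G : C(I × Disc, ℂ)} (hF : Good F) (hG : Good G) : Good (F + G) := by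
  intro t
  obtain ⟨f, hf, hf'⟩ := hF t
  obtain ⟨g, hg, hg'⟩ := hG t
  refine ⟨f + g, hf.add hg, fun w => ?_⟩
  rw [ContinuousMap.add_apply, hf', hg', Pi.add_apply]

lemma Good.sub {F G : C(I × Disc, ℂ)} (hF : Good F) (hG : Good G) : Good (F - G) := by
  intro t
  obtain ⟨f, hf, hf'⟩ := hF t
  obtain ⟨g, hg, hg'⟩ := hG t
  refine ⟨f - g, hf.sub hg, fun w => ?_⟩
  rw [ContinuousMap.sub_apply, hf', hg', Pi.sub_apply]

lemma Good.mul {F G : C(I × Disc, ℂ)} (hF : Good F) (hG : Good G) : Good (F * G) := by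
  intro t
  obtain ⟨f, hf, hf'⟩ := hF t
  obtain ⟨g, hg, hg'⟩ := hG t
  refine ⟨fun z => f z * g z, ⟨hf.1.mul hg.1, hf.2.mul hg.2⟩, fun w => ?_⟩
  rw [ContinuousMap.mul_apply, hf', hg']

lemma Good.const (c : ℂ) : Good (ContinuousMap.const _ c) := fun _ =>
  ⟨fun _ => c, diffContOnCl_const, fun _ => rfl⟩

/-- the function `1 - t` -/
def tauF : C(I × Disc, ℂ) := ⟨fun q => 1 - ((q.1 : ℝ) : ℂ), by fun_prop⟩

/-- the function `w` -/
def wF : C(I × Disc, ℂ) := ⟨fun q => (q.2 : ℂ), by fun_prop⟩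

lemma good_tau : Good tauF := fun t =>
  ⟨fun _ => 1 - ((t : ℝ) : ℂ), diffContOnCl_const, fun _ => rfl⟩

lemma good_w : Good wF := fun _ =>
  ⟨fun z => z, ⟨differentiableOn_id, continuousOn_id⟩, fun _ => rfl⟩

/-- the bottom and the lateral surface of the cylinder -/
abbrev Sg : Type := {p : I × Disc // (p.1 : ℝ) = 0 ∨ ‖(p.2 : ℂ)‖ = 1}

/-- A good function bounded below on the lateral surface and the bottom is bounded below. -/
lemma lower {F : C(I × Disc, ℂ)} (hF : Good F) {m : ℝ} (hm : 0 < m)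
    (h : ∀ s : Sg, m ≤ ‖F s.1‖) (q : I × Disc) : m ≤ ‖F q‖ := by
  -- the good parameters
  set T : Set I := {t | ∀ w : Disc, m ≤ ‖F (t, w)‖} with hT
  have key : ∀ t : I, (∀ w : Disc, F (t, w) ≠ 0) → t ∈ T := by
    intro t ht w
    obtain ⟨g, hg, hgF⟩ := hF t
    have hne : ∀ z ∈ closure (Metric.ball (0 : ℂ) 1), g z ≠ 0 := by
      intro z hz
      rw [closure_ball_one] at hz
      have := ht ⟨z, hz⟩
      rwa [hgF ⟨z, hz⟩] at this
    have h1 : ‖g⁻¹ (w : ℂ)‖ ≤ m⁻¹ := by
      refine Complex.norm_le_of_forall_mem_frontier_norm_le Metric.isBounded_ball (hg.inv hne)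
        (fun z hz => ?_) ?_
      · rw [frontier_ball_one, mem_sphere_zero_iff_norm] at hz
        have h1 : z ∈ Metric.closedBall (0 : ℂ) 1 := by
          rw [mem_closedBall_zero_iff]
          exact hz.le
        have h2 := h ⟨(t, ⟨z, h1⟩), Or.inr hz⟩
        rw [hgF ⟨z, h1⟩] at h2
        rw [Pi.inv_apply, norm_inv]
        exact inv_anti₀ hm h2
      · rw [closure_ball_one]
        exact w.2
    rw [Pi.inv_apply, norm_inv] at h1
    rw [hgF w]
    have h3 : 0 < ‖g w‖ := norm_pos_iff.2 (hne w (by rw [closure_ball_one]; exact w.2))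
    exact (inv_le_inv₀ h3 hm).1 h1
  have hclosed : IsClosed T := by
    have hT2 : T = ⋂ w : Disc, {t : I | m ≤ ‖F (t, w)‖} := by
      ext t
      simp [hT]
    rw [hT2]
    refine isClosed_iInter fun w => ?_
    exact isClosed_le continuous_const (by fun_prop)
  have hopen : IsOpen T := by
    rw [isOpen_iff_eventually]
    intro t ht
    have h1 : ∀ᶠ s in 𝓝 t, ∀ w ∈ (Set.univ : Set Disc), F (s, w) ≠ 0 := by
      refine isCompact_univ.eventually_forall_of_forall_eventually fun w _ => ?_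
      have h2 : F (t, w) ≠ 0 := norm_pos_iff.1 (lt_of_lt_of_le hm (ht w))
      exact F.continuous.continuousAt.eventually_ne h2
    filter_upwards [h1] with s hs
    exact key s fun w => hs w (Set.mem_univ w)
  have h0 : (0 : I) ∈ T := fun w => h ⟨(0, w), Or.inl rfl⟩
  have huniv : T = Set.univ := IsClopen.eq_univ ⟨hclosed, hopen⟩ ⟨0, h0⟩
  have := huniv ▸ Set.mem_univ q.1
  exact (this : q.1 ∈ T) q.2

/-- the reciprocal of a good function bounded below is good -/
lemma good_inv {F : C(I × Disc, ℂ)} (hF : Good F) {m : ℝ} (hm : 0 < m)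
    (h : ∀ s : Sg, m ≤ ‖F s.1‖) : ∃ G : C(I × Disc, ℂ), Good G ∧ ∀ q, G q = (F q)⁻¹ := by
  have hl := lower hF hm h
  have hne : ∀ q, F q ≠ 0 := fun q => norm_pos_iff.1 (lt_of_lt_of_le hm (hl q))
  refine ⟨⟨fun q => (F q)⁻¹, F.continuous.inv₀ hne⟩, fun t => ?_, fun q => rfl⟩
  obtain ⟨g, hg, hgF⟩ := hF t
  refine ⟨g⁻¹, hg.inv ?_, fun w => ?_⟩
  · intro z hz
    rw [closure_ball_one] at hz
    have := hne (t, ⟨z, hz⟩)
    rwa [hgF ⟨z, hz⟩] at this
  · show (F (t, w))⁻¹ = _
    rw [hgF w, Pi.inv_apply]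

end

end Pool.Agent.X189.GS
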