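import Mathlib
import Pool.Agent.X189.GS.Cyl

set_option autoImplicit false

/-!
The algebra of bounded sequences of continuous functions on the surface `Sg` which are
asymptotically analytic on the solid cylinder.
-/

namespace Pool.Agent.X189.GS

open Topology Filter unitInterval BoundedContinuousFunction

noncomputable section

/-- bounded sequences of continuous functions on the surface -/
abbrev BB : Type := BoundedContinuousFunction (ℕ × Sg) ℂ

/-- asymptotically analytic sequences -/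
def InA (x : BB) : Prop :=
  ∀ ε : ℝ, 0 < ε → ∃ N : ℕ, ∀ n : ℕ, N ≤ n → ∃ F : C(I × Disc, ℂ), Good F ∧
    ∀ s : Sg, ‖x (n, s) - F s.1‖ ≤ ε

lemma InA.add {x y : BB} (hx : InA x) (hy : InA y) : InA (x + y) := by
  intro ε hε
  obtain ⟨N, hN⟩ := hx (ε / 2) (by positivity)
  obtain ⟨M, hM⟩ := hy (ε / 2) (by positivity)
  refine ⟨max N M, fun n hn => ?_⟩
  obtain ⟨F, hF, hF'⟩ := hN n (le_trans (le_max_left _ _) hn)
  obtain ⟨G, hG, hG'⟩ := hM n (le_trans (le_max_right _ _) hn)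
  refine ⟨F + G, hF.add hG, fun s => ?_⟩
  have h1 : (x + y) (n, s) - (F + G) s.1 = (x (n, s) - F s.1) + (y (n, s) - G s.1) := by
    rw [BoundedContinuousFunction.add_apply, ContinuousMap.add_apply]
    ring
  rw [h1]
  calc _ ≤ ‖x (n, s) - F s.1‖ + ‖y (n, s) - G s.1‖ := norm_add_le _ _
    _ ≤ ε / 2 + ε / 2 := add_le_add (hF' s) (hG' s)
    _ = ε := by ring

lemma InA.mul {x y : BB} (hx : InA x) (hy : InA y) : InA (x * y) := by
  intro ε hε
  set C : ℝ := ‖x‖ + ‖y‖ + 1 with hC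
  have hC0 : 0 < C := by positivity
  set δ : ℝ := min 1 (ε / (2 * C)) with hδ
  have hδ0 : 0 < δ := by positivity
  have hδ1 : δ ≤ 1 := min_le_left _ _
  have hδ2 : δ * (2 * C) ≤ ε := by
    have : δ ≤ ε / (2 * C) := min_le_right _ _
    rwa [le_div_iff₀ (by positivity)] at this
  obtain ⟨N, hN⟩ := hx δ hδ0
  obtain ⟨M, hM⟩ := hy δ hδ0
  refine ⟨max N M, fun n hn => ?_⟩
  obtain ⟨F, hF, hF'⟩ := hN n (le_trans (le_max_left _ _) hn)
  obtain ⟨G, hG, hG'⟩ := hM n (le_trans (le_max_right _ _) hn)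
  refine ⟨F * G, hF.mul hG, fun s => ?_⟩
  have h1 : (x * y) (n, s) - (F * G) s.1 =
      x (n, s) * (y (n, s) - G s.1) + (x (n, s) - F s.1) * G s.1 := by
    rw [BoundedContinuousFunction.mul_apply, ContinuousMap.mul_apply]
    ring
  have h2 : ‖G s.1‖ ≤ C := by
    have h3 : G s.1 = y (n, s) - (y (n, s) - G s.1) := by ring
    rw [h3]
    calc _ ≤ ‖y (n, s)‖ + ‖y (n, s) - G s.1‖ := norm_sub_le _ _
      _ ≤ ‖y‖ + 1 := add_le_add (y.norm_coe_le_norm _) ((hG' s).trans hδ1)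
      _ ≤ C := by
        have := norm_nonneg x
        linarith
  have h4 : ‖x (n, s)‖ ≤ C := by
    refine (x.norm_coe_le_norm _).trans ?_
    have := norm_nonneg y
    linarith
  rw [h1]
  calc _ ≤ ‖x (n, s) * (y (n, s) - G s.1)‖ + ‖(x (n, s) - F s.1) * G s.1‖ := norm_add_le _ _
    _ = ‖x (n, s)‖ * ‖y (n, s) - G s.1‖ + ‖x (n, s) - F s.1‖ * ‖G s.1‖ := by
        rw [norm_mul, norm_mul]
    _ ≤ C * δ + δ * C := add_le_add
        (mul_le_mul h4 (hG' s) (norm_nonneg _) hC0.le)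
        (mul_le_mul (hF' s) h2 (norm_nonneg _) hδ0.le)
    _ = δ * (2 * C) := by ring
    _ ≤ ε := hδ2

/-- a function which is good at every level from some level on is in the algebra -/
lemma InA.of_eventually {x : BB} (N : ℕ)
    (h : ∀ n, N ≤ n → ∃ F : C(I × Disc, ℂ), Good F ∧ ∀ s : Sg, x (n, s) = F s.1) : InA x := by
  intro ε hε
  refine ⟨N, fun n hn => ?_⟩
  obtain ⟨F, hF, hF'⟩ := h n hn
  refine ⟨F, hF, fun s => ?_⟩
  rw [hF' s, sub_self, norm_zero]
  exact hε.le

/-- the algebra -/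
def AA : Subalgebra ℂ BB where
  carrier := {x | InA x}
  mul_mem' := fun hx hy => hx.mul hy
  add_mem' := fun hx hy => hx.add hy
  algebraMap_mem' := fun c => InA.of_eventually 0 fun n _ =>
    ⟨ContinuousMap.const _ c, Good.const c, fun s => rfl⟩

lemma mem_AA {x : BB} : x ∈ AA ↔ InA x := Iff.rfl

lemma AA_closed : IsClosed (AA : Set BB) := by
  rw [← closure_subset_iff_isClosed]
  intro x hx ε hε
  rw [Metric.mem_closure_iff] at hx
  obtain ⟨y, hy, hxy⟩ := hx (ε / 2) (by positivity)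
  obtain ⟨N, hN⟩ := hy (ε / 2) (by positivity)
  refine ⟨N, fun n hn => ?_⟩
  obtain ⟨F, hF, hF'⟩ := hN n hn
  refine ⟨F, hF, fun s => ?_⟩
  have h1 : ‖x (n, s) - y (n, s)‖ ≤ ε / 2 := by
    rw [← dist_eq_norm]
    exact (BoundedContinuousFunction.dist_coe_le_dist _).trans hxy.le
  have h2 : x (n, s) - F s.1 = (x (n, s) - y (n, s)) + (y (n, s) - F s.1) := by ring
  rw [h2]
  calc _ ≤ _ := norm_add_le _ _
    _ ≤ ε / 2 + ε / 2 := add_le_add h1 (hF' s)
    _ = ε := by ring

instance : CompleteSpace AA := AA_closed.completeSpace_coe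

/-- an element of the algebra bounded below is invertible -/
lemma unit_of_lower (x : AA) {δ : ℝ} (hδ : 0 < δ) (h : ∀ q, δ ≤ ‖(x : BB) q‖) : IsUnit x := by
  have hne : ∀ q, (x : BB) q ≠ 0 := fun q => norm_pos_iff.1 (lt_of_lt_of_le hδ (h q))
  let y : BB := BoundedContinuousFunction.ofNormedAddCommGroup (fun q => ((x : BB) q)⁻¹)
    ((x : BB).continuous.inv₀ hne) δ⁻¹ fun q => by
      rw [norm_inv]
      exact inv_anti₀ hδ (h q)
  have hy : ∀ q, y q = ((x : BB) q)⁻¹ := fun q => rfl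
  have hyA : InA y := by
    intro ε hε
    set η : ℝ := min (δ / 2) (ε * (δ * (δ / 2))) with hη
    have hη0 : 0 < η := by positivity
    obtain ⟨N, hN⟩ := x.2 η hη0
    refine ⟨N, fun n hn => ?_⟩
    obtain ⟨F, hF, hF'⟩ := hN n hn
    have hlow : ∀ s : Sg, δ / 2 ≤ ‖F s.1‖ := by
      intro s
      have h1 := h (n, s)
      have h2 : ‖(x : BB) (n, s) - F s.1‖ ≤ δ / 2 := (hF' s).trans (min_le_left _ _)
      have h3 := norm_sub_norm_le ((x : BB) (n, s)) (F s.1)
      linarith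
    obtain ⟨G, hG, hG'⟩ := good_inv hF (by positivity : 0 < δ / 2) hlow
    refine ⟨G, hG, fun s => ?_⟩
    rw [hy, hG']
    have hF0 : F s.1 ≠ 0 := norm_pos_iff.1 (lt_of_lt_of_le (by positivity) (hlow s))
    have h4 : ((x : BB) (n, s))⁻¹ - (F s.1)⁻¹ =
        -((x : BB) (n, s) - F s.1) / ((x : BB) (n, s) * F s.1) := by
      field_simp [hne (n, s), hF0]
      ring
    rw [h4, norm_div, norm_neg, norm_mul, div_le_iff₀ (by
      have := norm_pos_iff.2 (hne (n, s))
      have := norm_pos_iff.2 hF0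
      positivity)]
    calc ‖(x : BB) (n, s) - F s.1‖ ≤ ε * (δ * (δ / 2)) := (hF' s).trans (min_le_right _ _)
      _ ≤ ε * (‖(x : BB) (n, s)‖ * ‖F s.1‖) := by
        have := h (n, s)
        have := hlow s
        gcongr
  refine IsUnit.of_mul_eq_one (⟨y, hyA⟩ : AA) ?_
  apply Subtype.ext
  ext q
  show (x : BB) q * y q = 1
  rw [hy]
  exact mul_inv_cancel₀ (hne q)

/-- evaluation at a point -/
def evA (q : ℕ × Sg) : AA →ₐ[ℂ] ℂ :=
  { toFun := fun x => (x : BB) q
    map_one' := rfl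
    map_mul' := fun _ _ => rfl
    map_zero' := rfl
    map_add' := fun _ _ => rfl
    commutes' := fun _ => rfl }

/-- evaluation at a point as an element of the character space -/
def evC (q : ℕ × Sg) : WeakDual.characterSpace ℂ AA :=
  WeakDual.CharacterSpace.equivAlgHom.symm (evA q)

lemma evC_apply (q : ℕ × Sg) (x : AA) : evC q x = (x : BB) q := rfl

end

end Pool.Agent.X189.GS
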